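import Pool.Agent.Work.MP_e6b6d5_an.Generic

open Topology Filter Set
open Pool.Agent.Work.MP_e6b6d5_an

namespace Pool.Agent.Results.MP_e6b6d5_an.GenericOrbitClosures

/-- There is a nonempty compact metric space `X` with a homeomorphism `T` such that `(X, T)` is
disjoint from all minimal systems, but for all `x` in a dense `G_δ` set the subsystem on the orbit
closure of `x` does not have dense minimal points; in particular there is no dense `G_δ` set of
points whose orbit closures have dense minimal points. -/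
theorem result.{v} : ∃ (X : Type) (_ : MetricSpace X) (_ : CompactSpace X) (_ : Nonempty X)
    (T : X ≃ₜ X), DisjointFromAllMinimal.{v} (T : X → X) ∧
      (∃ Ω : Set X, IsGδ Ω ∧ Dense Ω ∧ ∀ x ∈ Ω, ¬ HasDenseMinimalPoints (T : X → X) x) ∧
      ¬ ∃ Ω : Set X, IsGδ Ω ∧ Dense Ω ∧ ∀ x ∈ Ω, HasDenseMinimalPoints (T : X → X) x := by
  have hcs : CompactSpace XX := isCompact_iff_compactSpace.1 isClosed_XX.isCompact
  have hne : Nonempty XX := by
    refine ⟨⟨(zeroC, fun _ _ => false), mem_XX_of 0 (fun _ _ => rfl) ?_⟩⟩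
    refine ⟨zeroC, ?_, ?_⟩
    · intro s t hs
      exact absurd hs (by simp [zeroC])
    · funext t
      rw [Bool.eq_iff_iff, plus_true]
      simp [zeroC]
  let m : MetricSpace XX := TopologicalSpace.metrizableSpaceMetric XX
  refine ⟨XX, m, hcs, hne, TT, disjoint_TT, generic_bad, ?_⟩
  rintro ⟨Ω, hΩ, hd, hgood⟩
  obtain ⟨Ω', hΩ', hd', hbad⟩ := generic_bad
  have hdense : Dense (Ω ∩ Ω') := Dense.inter_of_Gδ hΩ hΩ' hd hd'
  obtain ⟨x, hx⟩ := hdense.nonempty
  exact hbad x hx.2 (hgood x hx.1)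

end Pool.Agent.Results.MP_e6b6d5_an.GenericOrbitClosures
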